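import Pool.Agent.Results.MP_0da313_nt.LinearPairsEveryModulus

set_option autoImplicit false
set_option maxHeartbeats 4000000

/-!
Pairs of linear polynomials along `x + y = n`, uniformly in the pair: from Goldbach pairs in windows to the predicted counts
for all the families with coefficients up to powers of the logarithm.
-/

namespace Pool.Agent.U837.LP

open Finset
open Pool.Agent.H560R3.GB (sing)
open Pool.Agent.Results.MP_0da313_nt.LinearPairsEveryModulus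

/-- the windows, uniformly in the family -/
theorem good_unif (ε : ℝ) (hε : 0 < ε) (A J W : ℕ) : ∃ δ : ℝ, 0 < δ ∧ ∃ N₁ : ℕ, ∀ n : ℕ, N₁ ≤ n →
    ∀ (u v : ℕ), 2 ∣ u → 2 ∣ v → ∀ (a b : ℤ), Odd a → Odd b → (u : ℝ) ≤ Real.log n ^ J → (v : ℝ) ≤ Real.log n ^ J →
      (a.natAbs : ℝ) ≤ Real.log n ^ W → (b.natAbs : ℝ) ≤ Real.log n ^ W →
      Pool.Agent.W93.PG.WinP δ (A + J + 1) (M u v a b n) → Good ε A u v a b n := by
  obtain ⟨δ, hδdef⟩ : ∃ δ : ℝ, δ = min ε 1 / 8 := ⟨_, rfl⟩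
  have hδ : 0 < δ := by rw [hδdef]; positivity
  have hδ8 : δ ≤ 1 / 8 := by
    rw [hδdef]
    have := min_le_right ε 1
    linarith
  have hδε : 8 * δ ≤ ε := by
    rw [hδdef]
    have := min_le_left ε 1
    linarith
  have hε7 : 6 * δ ≤ ε := by linarith
  obtain ⟨n1, h1⟩ := ev_log (64 * ((J : ℝ) + 1) ^ 2 / δ ^ 2 + 7)
  obtain ⟨n2, h2⟩ := ev_pow (A + W + 2) (48 / δ + 16) 1 (by norm_num)
  refine ⟨δ, hδ, n1 + n2 + 4, fun n hn u v hu hv a b ha hb hur hvr har hbr hW => ?_⟩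
  obtain ⟨E, hE⟩ : ∃ E : ℕ, E = a.natAbs + b.natAbs := ⟨_, rfl⟩
  obtain ⟨K, hK⟩ : ∃ K : ℕ, K = u + v + 2 := ⟨_, rfl⟩
  have a1 := h1 n (by omega)
  have a2' := h2 n (by omega)
  rw [Real.rpow_one] at a2'
  have hEr : (E : ℝ) ≤ 2 * Real.log n ^ W := by
    rw [hE]; push_cast; linarith
  have hKr : (K : ℝ) ≤ 2 * Real.log n ^ J + 2 := by
    rw [hK]; push_cast; linarith
  have hl7 : 7 ≤ Real.log (n : ℝ) := by
    have : 0 ≤ 64 * ((J : ℝ) + 1) ^ 2 / δ ^ 2 := by positivity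
    linarith
  have hl64 : 64 * ((J : ℝ) + 1) ^ 2 / δ ^ 2 ≤ Real.log (n : ℝ) := by linarith
  have hEn : 16 * (E + 1 : ℝ) ≤ n ∧ 16 * ((E : ℝ) + 1) / δ * Real.log n ^ (A + 2) ≤ n := by
    obtain ⟨l, hl⟩ : ∃ l, l = Real.log (n : ℝ) := ⟨_, rfl⟩
    rw [← hl] at hEr a2' hl7 ⊢
    have hl1 : 1 ≤ l := by linarith
    have hlW : 1 ≤ l ^ W := one_le_pow₀ hl1
    have hE3 : (E : ℝ) + 1 ≤ 3 * l ^ W := by linarith
    have e1 : (48 / δ + 16) * l ^ (A + W + 2) = 48 / δ * l ^ (A + W + 2) + 16 * l ^ (A + W + 2) := by ring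
    have p1 : 0 ≤ 48 / δ * l ^ (A + W + 2) := by positivity
    have p2 : 0 ≤ 16 * l ^ (A + W + 2) := by positivity
    constructor
    · have e2 : l ^ W * l ≤ l ^ (A + W + 2) := by
        rw [← pow_succ]
        exact pow_le_pow_right₀ hl1 (by omega)
      nlinarith
    · calc 16 * ((E : ℝ) + 1) / δ * l ^ (A + 2) ≤ 16 * (3 * l ^ W) / δ * l ^ (A + 2) := by gcongr
        _ = 48 / δ * l ^ (A + W + 2) := by ring
        _ ≤ n := by linarith
  obtain ⟨hEn1, a2⟩ := hEn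
  have hEn' : E + 4 ≤ n := by
    have h3 : (E : ℝ) + 4 ≤ n := by
      have : (0 : ℝ) ≤ E := Nat.cast_nonneg E
      linarith
    exact_mod_cast h3
  obtain ⟨m, hm⟩ : ∃ m, m = M u v a b n := ⟨_, rfl⟩
  have hMint := M_int u v a b n (by omega)
  rw [← hm] at hW hMint
  have hE0 : (0 : ℝ) ≤ E := Nat.cast_nonneg E
  have hK0 : (2 : ℝ) ≤ K := by exact_mod_cast (by omega : 2 ≤ K)
  have hn1 : (1 : ℝ) ≤ n := by exact_mod_cast (by omega : 1 ≤ n)
  have hnpos : (0 : ℝ) < n := by linarith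
  have hmint' : (m : ℤ) = (K : ℤ) * n + a + b := by rw [hMint, hK]; push_cast; ring
  have hK2 : (2 : ℤ) * n ≤ (K : ℤ) * n := by
    apply mul_le_mul_of_nonneg_right _ (by positivity)
    omega
  have hm1 : m ≤ K * n + n := by
    have : ((K * n + n : ℕ) : ℤ) = (K : ℤ) * n + n := by push_cast; ring
    omega
  have hm2 : n ≤ m := by omega
  obtain ⟨l, hl⟩ : ∃ l, l = Real.log (n : ℝ) := ⟨_, rfl⟩
  rw [← hl] at a1 a2 hKr hl7 hl64
  have hlogK : 0 ≤ Real.log ((K : ℝ) + 1) := Real.log_nonneg (by linarith)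
  have hl2 : 2 ≤ l := by linarith
  have hl1 : 1 ≤ l := by linarith
  have hlpos : 0 < l := by linarith
  have hlb : (K : ℝ) + 1 ≤ l ^ (J + 1) := by
    have hlJ : 1 ≤ l ^ J := one_le_pow₀ hl1
    rw [pow_succ]
    nlinarith
  have hlK : Real.log ((K : ℝ) + 1) ≤ δ / 4 * l := by
    have s0 : 0 < √l := Real.sqrt_pos.2 hlpos
    have s1 : √l * √l = l := Real.mul_self_sqrt hlpos.le
    have s2 : Real.log l ≤ 2 * √l := by
      have h3 : Real.log l = 2 * Real.log √l := by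
        rw [Real.log_sqrt hlpos.le]; ring
      rw [h3]
      have := Real.log_le_sub_one_of_pos s0
      linarith
    have s3 : Real.log ((K : ℝ) + 1) ≤ (J + 1) * Real.log l := by
      have h3 : Real.log ((K : ℝ) + 1) ≤ Real.log (l ^ (J + 1)) := Real.log_le_log (by positivity) hlb
      rw [Real.log_pow] at h3
      push_cast at h3
      exact h3
    have s4 : 8 * ((J : ℝ) + 1) ≤ δ * √l := by
      rw [div_le_iff₀ (by positivity)] at hl64
      have h3 : (8 * ((J : ℝ) + 1)) ^ 2 ≤ (δ * √l) ^ 2 := by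
        calc (8 * ((J : ℝ) + 1)) ^ 2 = 64 * ((J : ℝ) + 1) ^ 2 := by ring
          _ ≤ l * δ ^ 2 := hl64
          _ = (δ * √l) ^ 2 := by rw [mul_pow, pow_two √l, s1]; ring
      exact (pow_le_pow_iff_left₀ (by positivity) (by positivity) (by norm_num)).1 h3
    calc Real.log ((K : ℝ) + 1) ≤ (J + 1) * Real.log l := s3
      _ ≤ (J + 1) * (2 * √l) := mul_le_mul_of_nonneg_left s2 (by positivity)
      _ = 8 * (J + 1) * √l / 4 := by ring
      _ ≤ δ * √l * √l / 4 := by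
          apply div_le_div_of_nonneg_right _ (by norm_num)
          exact mul_le_mul_of_nonneg_right s4 s0.le
      _ = δ / 4 * l := by rw [mul_assoc, s1]; ring
  obtain ⟨k, hk⟩ : ∃ k, k = Real.log (m : ℝ) := ⟨_, rfl⟩
  have hm1' : (m : ℝ) ≤ (K + 1) * n := by
    have : (m : ℝ) ≤ K * n + n := by exact_mod_cast hm1
    linarith
  have hm2' : (n : ℝ) ≤ m := by exact_mod_cast hm2
  have hkl1 : l ≤ k := by
    rw [hl, hk]
    exact Real.log_le_log hnpos hm2'
  have hkl2 : k ≤ l + Real.log ((K : ℝ) + 1) := by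
    rw [hl, hk, add_comm, ← Real.log_mul (by positivity) (by positivity)]
    exact Real.log_le_log (by linarith) hm1'
  have hlc : |k - l| ≤ δ / 4 * l := by
    rw [abs_le]
    constructor
    · have : 0 ≤ δ / 4 * l := by positivity
      linarith
    · linarith
  have hkpos : 0 < k := by linarith
  have hC0 : 0 ≤ 16 * ((E : ℝ) + 1) / δ := by positivity
  obtain ⟨S, hS⟩ : ∃ S, S = sing m := ⟨_, rfl⟩
  have hs1 : 1 ≤ S := by
    rw [hS]
    exact Pool.Agent.R460.GS.one_le_sing _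
  have hs0 : 0 ≤ S := by linarith
  -- windows
  have key : ∀ y₁ y₂ : ℕ, y₁ < y₂ → y₂ ≤ n → (n : ℝ) / l ^ A ≤ (y₂ : ℝ) - y₁ →
      |(reps (family u v a b) n y₁ y₂ : ℝ) - S * (2 * ((y₂ : ℝ) - y₁) / l ^ 2)| ≤
        6 * δ * (S * (2 * ((y₂ : ℝ) - y₁) / l ^ 2)) := by
    intro y₁ y₂ h12 hy2 hlen
    obtain ⟨P₁, P₂, c1, c2, c2u, c3, c4⟩ := window u v hu hv a b ha hb n y₁ y₂ h12 hy2 (by omega)
    rw [← hm] at c1 c3 c4
    have hEz : (E : ℤ) = a.natAbs + b.natAbs := by rw [hE]; push_cast; rfl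
    rw [← hEz] at c2 c2u
    rw [← hE] at c4
    have c2' : 2 * ((y₂ : ℝ) - y₁) - E ≤ (P₂ : ℝ) - P₁ := by exact_mod_cast c2
    have c2u' : (P₂ : ℝ) - P₁ ≤ 2 * ((y₂ : ℝ) - y₁) + E := by exact_mod_cast c2u
    obtain ⟨D, hD⟩ : ∃ D, D = 2 * ((y₂ : ℝ) - y₁) := ⟨_, rfl⟩
    rw [← hD] at c2' c2u' ⊢
    have hlen' : 2 * ((n : ℝ) / l ^ A) ≤ D := by rw [hD]; linarith
    have hED : 16 * ((E : ℝ) + 1) ≤ δ * (D / l ^ 2) := by
      have f1 : 16 * ((E : ℝ) + 1) / δ ≤ D / l ^ 2 := by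
        rw [le_div_iff₀ (by positivity)]
        have f2 : 16 * ((E : ℝ) + 1) / δ * l ^ 2 ≤ n / l ^ A := by
          rw [le_div_iff₀ (by positivity)]
          calc 16 * ((E : ℝ) + 1) / δ * l ^ 2 * l ^ A = 16 * ((E : ℝ) + 1) / δ * l ^ (A + 2) := by ring
            _ ≤ n := a2
        have f3 : 0 ≤ (n : ℝ) / l ^ A := by positivity
        linarith
      rw [div_le_iff₀ hδ] at f1
      linarith
    have hDpos : 0 < D := by
      have : 0 < (n : ℝ) / l ^ A := by positivity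
      linarith
    have hDl : D / l ^ 2 ≤ D := div_le_self hDpos.le (one_le_pow₀ hl1)
    have hδD : δ * (D / l ^ 2) ≤ δ * D := mul_le_mul_of_nonneg_left hDl hδ.le
    have hDD : |((P₂ : ℝ) - P₁) - D| ≤ δ * D := by
      rw [abs_le]
      constructor <;> linarith
    have hPP : 7 / 8 * D ≤ (P₂ : ℝ) - P₁ := by
      have := (abs_le.1 hDD).1
      nlinarith
    have hP12 : P₁ < P₂ := by
      have : (P₁ : ℝ) < P₂ := by linarith
      exact_mod_cast this
    have hwin := hW P₁ P₂ hP12 c1 (by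
      rw [← hk]
      refine le_trans ?_ hPP
      rw [div_le_iff₀ (by positivity)]
      have f1 : 2 * (n : ℝ) ≤ D * l ^ A := by
        have : 2 * ((n : ℝ) / l ^ A) = 2 * n / l ^ A := by ring
        rw [this, div_le_iff₀ (by positivity)] at hlen'
        exact hlen'
      have f2 : l ^ A ≤ k ^ A := pow_le_pow_left₀ hlpos.le hkl1 A
      have f3 : D * l ^ A ≤ D * k ^ A := mul_le_mul_of_nonneg_left f2 hDpos.le
      have f5 : 0 ≤ D * k ^ A := by positivity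
      have f7 : (K : ℝ) + 1 ≤ k ^ (J + 1) := hlb.trans (pow_le_pow_left₀ hlpos.le hkl1 _)
      have f8 : D * k ^ A * (K + 1) ≤ D * k ^ A * k ^ (J + 1) := mul_le_mul_of_nonneg_left f7 f5
      have f9 : 2 * (m : ℝ) ≤ (K + 1) * (D * k ^ A) := by
        calc 2 * (m : ℝ) ≤ (K + 1) * (2 * n) := by linarith
          _ ≤ (K + 1) * (D * k ^ A) := mul_le_mul_of_nonneg_left (by linarith) (by linarith)
      calc (m : ℝ) ≤ 7 / 8 * (2 * m) := by nlinarith
        _ ≤ 7 / 8 * (D * k ^ A * k ^ (J + 1)) := by linarith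
        _ = 7 / 8 * D * k ^ (A + J + 1) := by ring)
    rw [← hk, mul_div_assoc, ← hS] at hwin
    have hcomb := abs_combine hs0 (by positivity : (0 : ℝ) ≤ D / l ^ 2) hδ hδ8 hwin
      (ratio_close hDpos hlpos hδ hδ8 hDD hlc)
    have c3' : (Pool.Agent.W93.PG.cnt m P₁ P₂ : ℝ) ≤ reps (family u v a b) n y₁ y₂ + 1 := by exact_mod_cast c3
    have c4' : (reps (family u v a b) n y₁ y₂ : ℝ) ≤ Pool.Agent.W93.PG.cnt m P₁ P₂ + E := by exact_mod_cast c4
    have g1 : D / l ^ 2 ≤ S * (D / l ^ 2) := le_mul_of_one_le_left (by positivity) hs1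
    have g2 : δ * (D / l ^ 2) ≤ δ * (S * (D / l ^ 2)) := mul_le_mul_of_nonneg_left g1 hδ.le
    rw [abs_le] at hcomb ⊢
    constructor
    · linarith [hcomb.1]
    · linarith [hcomb.2]
  rw [Good, ← hm, ← hl, ← hS]
  refine ⟨?_, ?_⟩
  · have h3 := (abs_le.1 (key 0 n (by omega) le_rfl (by
      rw [Nat.cast_zero, sub_zero]
      exact div_le_self hnpos.le (one_le_pow₀ hl1)))).1
    rw [Nat.cast_zero, sub_zero] at h3
    have h4 : 0 < S * (2 * (n : ℝ) / l ^ 2) := by positivity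
    have h5 : 6 * δ * (S * (2 * (n : ℝ) / l ^ 2)) ≤ 3 / 4 * (S * (2 * (n : ℝ) / l ^ 2)) :=
      mul_le_mul_of_nonneg_right (by linarith) h4.le
    have h6 : 0 < (reps (family u v a b) n 0 n : ℝ) := by linarith
    have h7 : 0 < reps (family u v a b) n 0 n := by exact_mod_cast h6
    classical
    unfold reps at h7
    rw [card_pos] at h7
    obtain ⟨x, hx⟩ := h7
    rw [mem_filter, mem_Ioc] at hx
    refine ⟨x, n - x, hx.1.1, by omega, by omega, ?_⟩
    have e : (((n - x : ℕ) : ℤ)) = (n : ℤ) - x := by omega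
    rw [e]
    exact hx.2.2
  · intro y₁ y₂ h12 hy2 hlen
    refine (key y₁ y₂ h12 hy2 hlen).trans ?_
    have h12' : (y₁ : ℝ) < y₂ := by exact_mod_cast h12
    have hpos : 0 ≤ S * (2 * ((y₂ : ℝ) - y₁) / l ^ 2) := by
      apply mul_nonneg hs0
      apply div_nonneg (by linarith) (by positivity)
    exact mul_le_mul_of_nonneg_right hε7 hpos


end Pool.Agent.U837.LP
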